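import Pool.Agent.Lib.MP_ea1188_al.KG.IfaceC

/-!
# Module DLOG: the logarithmic derivative of `det (1 + t X)`
-/

set_option autoImplicit false

namespace KG.H78

open Matrix

section

variable {ι : Type} [Fintype ι] [DecidableEq ι] (X : Matrix ι ι ℤ)

/-- `1 + t X` over the power series -/
noncomputable def mA : Matrix ι ι (PowerSeries ℤ) :=
  1 + (PowerSeries.X : PowerSeries ℤ) • X.map (Int.castRingHom (PowerSeries ℤ))

/-- its inverse -/
noncomputable def mN : Matrix ι ι (PowerSeries ℤ) :=
  Matrix.of fun i k => PowerSeries.mk fun j => (-1) ^ j * (X ^ j) i k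

lemma coeff_int_mul (a : ℤ) (f : PowerSeries ℤ) (n : ℕ) :
    PowerSeries.coeff n (((Int.castRingHom (PowerSeries ℤ)) a) * f) = a * PowerSeries.coeff n f := by
  rw [show (Int.castRingHom (PowerSeries ℤ)) a = PowerSeries.C a by simp]
  exact PowerSeries.coeff_C_mul n f a

lemma mA_mul_mN : mA X * mN X = 1 := by
  ext i k n
  rw [mA, add_mul, one_mul, Matrix.add_apply, Matrix.smul_mul, Matrix.smul_apply, smul_eq_mul,
    Matrix.mul_apply, map_add]
  rcases n with _ | n
  · rw [PowerSeries.coeff_zero_X_mul]
    simp [mN, Matrix.one_apply]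
  · rw [PowerSeries.coeff_succ_X_mul, map_sum]
    have e1 : PowerSeries.coeff (n + 1) (mN X i k) = (-1) ^ (n + 1) * (X ^ (n + 1)) i k := by
      simp [mN]
    have e2 : ∀ l, PowerSeries.coeff n ((X.map (Int.castRingHom (PowerSeries ℤ))) i l *
        mN X l k) = (-1) ^ n * (X i l * (X ^ n) l k) := by
      intro l
      rw [Matrix.map_apply, coeff_int_mul]
      simp [mN]
      ring
    rw [e1, Finset.sum_congr rfl fun l _ => e2 l, ← Finset.mul_sum, ← Matrix.mul_apply,
      ← pow_succ']
    have e3 : PowerSeries.coeff (n + 1) ((1 : Matrix ι ι (PowerSeries ℤ)) i k) = 0 := by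
      rw [Matrix.one_apply]
      split_ifs
      · rw [PowerSeries.coeff_one, if_neg (by omega)]
      · simp
    rw [e3]
    ring

lemma trace_mN : Matrix.trace (mN X * X.map (Int.castRingHom (PowerSeries ℤ))) =
    PowerSeries.mk (fun j => (-1) ^ j * Matrix.trace (X ^ (j + 1))) := by
  ext n
  rw [Matrix.trace, map_sum, PowerSeries.coeff_mk, Matrix.trace, Finset.mul_sum]
  apply Finset.sum_congr rfl
  intro i _
  rw [Matrix.diag_apply, Matrix.mul_apply, map_sum, Matrix.diag_apply, pow_succ, Matrix.mul_apply,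
    Finset.mul_sum]
  apply Finset.sum_congr rfl
  intro l _
  rw [mul_comm, Matrix.map_apply, coeff_int_mul]
  simp [mN]
  ring

lemma det_mA : (mA X).det = (dPoly X : PowerSeries ℤ) := by
  rw [dPoly, ← Polynomial.coeToPowerSeries.ringHom_apply, RingHom.map_det]
  congr 1
  ext1 i k
  simp only [mA, Matrix.add_apply, Matrix.smul_apply, Matrix.map_apply, RingHom.mapMatrix_apply,
    map_add, smul_eq_mul, map_mul, Matrix.one_apply]
  congr 1
  · split_ifs <;> simp
  · simp

/-- substitute `t + h` -/
noncomputable def sub : Polynomial ℤ →+* Polynomial (PowerSeries ℤ) :=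
  Polynomial.eval₂RingHom (Int.castRingHom _) (Polynomial.C PowerSeries.X + Polynomial.X)

lemma sub_eq (p : Polynomial ℤ) : sub p =
    (p.map (Int.castRingHom (PowerSeries ℤ))).comp (Polynomial.C PowerSeries.X + Polynomial.X) := by
  rw [sub, Polynomial.coe_eval₂RingHom, Polynomial.comp, Polynomial.eval₂_map]
  congr 1

lemma eval_derivative_sub (p : Polynomial ℤ) :
    (Polynomial.derivative (sub p)).eval 0 = (Polynomial.derivative p : PowerSeries ℤ) := by
  rw [sub_eq, Polynomial.derivative_comp, Polynomial.eval_mul, Polynomial.eval_comp,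
    Polynomial.derivative_map, Polynomial.eval_map]
  have e : (Int.castRingHom (PowerSeries ℤ)) = PowerSeries.C := RingHom.ext_int _ _
  rw [e]
  simp [Polynomial.eval₂_C_X_eq_coe]

lemma sub_dPoly : sub (dPoly X) = Polynomial.C (mA X).det *
    Matrix.det (1 + (Polynomial.X : Polynomial (PowerSeries ℤ)) •
      (mN X * X.map (Int.castRingHom (PowerSeries ℤ))).map Polynomial.C) := by
  rw [dPoly, RingHom.map_det, RingHom.map_det, ← Matrix.det_mul]
  congr 1
  rw [mul_add, mul_one, Matrix.mul_smul]
  have e1 : (Polynomial.C (R := PowerSeries ℤ)).mapMatrix (mA X) *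
      (mN X * X.map (Int.castRingHom (PowerSeries ℤ))).map Polynomial.C =
      (X.map (Int.castRingHom (PowerSeries ℤ))).map Polynomial.C := by
    have := congrArg (Polynomial.C (R := PowerSeries ℤ)).mapMatrix
      (show mA X * (mN X * X.map (Int.castRingHom (PowerSeries ℤ))) =
        X.map (Int.castRingHom (PowerSeries ℤ)) by rw [← mul_assoc, mA_mul_mN, one_mul])
    rw [map_mul] at this
    exact this
  rw [e1]
  ext1 i k
  simp only [mA, Matrix.add_apply, Matrix.smul_apply, Matrix.map_apply, RingHom.mapMatrix_apply,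
    map_add, smul_eq_mul, map_mul, Matrix.one_apply]
  have e2 : sub Polynomial.X = Polynomial.C PowerSeries.X + Polynomial.X := by simp [sub]
  have e3 : ∀ a : ℤ, sub (Polynomial.C a) = Polynomial.C (Int.castRingHom (PowerSeries ℤ) a) := by
    intro a; simp [sub]
  rw [e2, e3]
  have e4 : sub (if i = k then 1 else 0) =
      Polynomial.C (if i = k then (1 : PowerSeries ℤ) else 0) := by
    split_ifs <;> simp
  rw [e4]
  ring

end

theorem dlog : DlogS := by
  intro ι _ _ X
  have h1 := eval_derivative_sub (dPoly X)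
  rw [sub_dPoly, Polynomial.derivative_mul, Polynomial.derivative_C, zero_mul, zero_add,
    Polynomial.eval_mul, Polynomial.eval_C, Matrix.derivative_det_one_add_X_smul, trace_mN,
    det_mA] at h1
  rw [h1]
  exact PowerSeries.derivative_coe (dPoly X)

end KG.H78
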