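import Pool.Agent.Lib.MP_ea1188_al.KG.IfaceC

/-!
# Module EXPL: the 2-adic exponential lemma for power series over the integers
-/

set_option autoImplicit false

namespace KG.H78

open PowerSeries

/-- uniqueness of solutions of `Y' G = Y G'` -/
lemma eq_of_wronskian {R : Type} [CommRing R] [IsAddTorsionFree R] {A G : PowerSeries R}
    (hA : constantCoeff A = 1) (hG : constantCoeff G = 1)
    (h : derivative R A * G = A * derivative R G) : A = G := by
  have hu : IsUnit G := by
    rw [PowerSeries.isUnit_iff_constantCoeff, hG]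
    exact isUnit_one
  obtain ⟨u, hu⟩ := hu
  have hinv : (u : PowerSeries R) * (↑u⁻¹ : PowerSeries R) = 1 := u.mul_inv
  have h1 : A * (↑u⁻¹ : PowerSeries R) = 1 := by
    apply derivative.ext
    · rw [Derivation.leibniz, derivative_inv, smul_eq_mul, smul_eq_mul, hu,
        Derivation.map_one_eq_zero]
      have e : A * (-(↑u⁻¹ : PowerSeries R) ^ 2 * derivative R G) +
          (↑u⁻¹ : PowerSeries R) * derivative R A =
          (↑u⁻¹ : PowerSeries R) * derivative R A * (1 - (u : PowerSeries R) * ↑u⁻¹) +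
          (↑u⁻¹ : PowerSeries R) ^ 2 * (derivative R A * G - A * derivative R G) := by
        rw [hu]; ring
      rw [e, hinv, h]
      ring
    · have := congrArg (constantCoeff (R := R)) hinv
      rw [map_mul, hu, hG, one_mul] at this
      rw [map_mul, hA, this]
      simp
  calc A = A * (↑u⁻¹ : PowerSeries R) * u := by rw [mul_assoc, u.inv_mul, mul_one]
    _ = G := by rw [h1, one_mul, hu]

abbrev O : Type := ℤ_[2]

lemma two_pow_dvd_int {k : ℤ} {n : ℕ} : (2 : O) ^ n ∣ (k : O) ↔ (2 : ℤ) ^ n ∣ k := by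
  have := PadicInt.pow_p_dvd_int_iff (p := 2) n k
  exact_mod_cast this

/-- the odd part -/
lemma nat_split {n : ℕ} (hn : n ≠ 0) : ∃ u : ℕ, u % 2 = 1 ∧ n = 2 ^ padicValNat 2 n * u := by
  obtain ⟨u, hu⟩ := pow_padicValNat_dvd (p := 2) (n := n)
  refine ⟨u, ?_, hu⟩
  by_contra h
  have h2 : 2 ∣ u := by omega
  have : 2 ^ (padicValNat 2 n + 1) ∣ n := by
    nth_rw 2 [hu]
    rw [pow_succ]
    exact mul_dvd_mul_left _ h2
  exact pow_succ_padicValNat_not_dvd hn this

lemma isUnit_odd {u : ℕ} (hu : u % 2 = 1) : IsUnit (u : O) := by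
  rw [PadicInt.isUnit_iff, PadicInt.norm_natCast_eq_one_iff]
  rw [Nat.coprime_two_left]
  exact Nat.odd_iff.2 hu

/-- the coefficients of the exponential -/
lemma exists_e (a i : ℕ) (ha : 1 ≤ a) : ∃ x : O, (i.factorial : O) * x = (2 : O) ^ (a * i) ∧
    (1 ≤ i → (2 : O) ^ (i * (a - 1) + 1) ∣ x) := by
  obtain ⟨u, hu, h⟩ := nat_split (Nat.factorial_ne_zero i)
  obtain ⟨v, hv⟩ := isUnit_odd hu
  have hle : padicValNat 2 i.factorial ≤ i := padicValNat_factorial_le (p := 2) i
  have hle2 : padicValNat 2 i.factorial ≤ a * i := hle.trans (Nat.le_mul_of_pos_left i ha)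
  refine ⟨(2 : O) ^ (a * i - padicValNat 2 i.factorial) * ↑v⁻¹, ?_, ?_⟩
  · have h1 : (i.factorial : O) = (2 : O) ^ padicValNat 2 i.factorial * v := by
      rw [hv]
      exact_mod_cast h
    have h2 : (2 : O) ^ padicValNat 2 i.factorial *
        (2 : O) ^ (a * i - padicValNat 2 i.factorial) = 2 ^ (a * i) := by
      rw [← pow_add]
      congr 1
      omega
    rw [h1]
    calc (2 : O) ^ padicValNat 2 i.factorial * v *
        ((2 : O) ^ (a * i - padicValNat 2 i.factorial) * ↑v⁻¹)
        = ((2 : O) ^ padicValNat 2 i.factorial *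
        (2 : O) ^ (a * i - padicValNat 2 i.factorial)) * (v * ↑v⁻¹) := by ring
      _ = _ := by rw [h2, v.mul_inv, mul_one]
  · intro hi
    have hlt : padicValNat 2 i.factorial < i :=
      padicValNat_factorial_lt_of_ne_zero (p := 2) (n := i) (by omega)
    apply Dvd.dvd.mul_right
    apply pow_dvd_pow
    obtain ⟨b, rfl⟩ : ∃ b, a = b + 1 := ⟨a - 1, by omega⟩
    have : (b + 1) * i = i * b + i := by ring
    rw [this, Nat.add_sub_cancel]
    omega

/-- division by `j` -/
lemma exists_F {a j : ℕ} {c : ℤ} (hj : 1 ≤ j) (hc : (2 : ℤ) ^ (a + padicValNat 2 j) ∣ c) :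
    ∃ F : O, (2 : O) ^ a * F * (j : O) = (c : O) ∧
      ((2 : ℤ) ^ (a + padicValNat 2 j + 1) ∣ c → (2 : O) ∣ F) ∧
      (¬ (2 : ℤ) ^ (a + padicValNat 2 j + 1) ∣ c → (2 : O) ∣ F - 1) := by
  obtain ⟨u, hu, h⟩ := nat_split (n := j) (by omega)
  obtain ⟨v, hv⟩ := isUnit_odd hu
  obtain ⟨c', hc'⟩ := hc
  have hF : (v : O) * ((↑v⁻¹ : O) * (c' : O)) = c' := by
    rw [← mul_assoc, v.mul_inv, one_mul]
  refine ⟨(↑v⁻¹ : O) * (c' : O), ?_, ?_, ?_⟩
  · have h1 : (j : O) = (2 : O) ^ padicValNat 2 j * v := by
      rw [hv]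
      exact_mod_cast h
    have h2 : (c : O) = (2 : O) ^ (a + padicValNat 2 j) * (c' : O) := by
      rw [hc']
      push_cast
      ring
    rw [h1, h2, pow_add]
    calc (2 : O) ^ a * ((↑v⁻¹ : O) * (c' : O)) * ((2 : O) ^ padicValNat 2 j * v)
        = (2 : O) ^ a * (2 : O) ^ padicValNat 2 j * ((v : O) * ((↑v⁻¹ : O) * (c' : O))) := by ring
      _ = _ := by rw [hF]
  · intro h1
    rw [hc', pow_succ, mul_dvd_mul_iff_left (by positivity)] at h1
    apply Dvd.dvd.mul_left
    have := (two_pow_dvd_int (k := c') (n := 1)).2 (by simpa using h1)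
    simpa using this
  · intro h1
    rw [hc', pow_succ, mul_dvd_mul_iff_left (by positivity)] at h1
    have h2 : (2 : ℤ) ^ 1 ∣ c' - u := by
      rw [pow_one]
      omega
    have h3 := (two_pow_dvd_int (k := c' - u) (n := 1)).2 h2
    have h4 : (↑v⁻¹ : O) * (c' : O) - 1 = (↑v⁻¹ : O) * ((c' - u : ℤ) : O) := by
      push_cast
      rw [mul_sub, ← hv, v.inv_mul]
    rw [h4]
    apply Dvd.dvd.mul_left
    simpa using h3

lemma two_pow_C (m : ℕ) : (2 : PowerSeries O) ^ m = PowerSeries.C ((2 : O) ^ m) := by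
  rw [map_pow, map_ofNat]

lemma map_derivative' {R S : Type} [CommRing R] [CommRing S] (f : R →+* S) (A : PowerSeries R) :
    PowerSeries.map f (derivative R A) = derivative S (PowerSeries.map f A) := by
  ext n
  simp [coeff_derivative]

/-- The main lemma: `A = B E` over the `2`-adic integers. -/
lemma main_exp {A B : PowerSeries ℤ} {c : ℕ → ℤ} {a : ℕ} (ha : 1 ≤ a)
    (hA : constantCoeff A = 1) (hB : constantCoeff B = 1)
    (h : derivative ℤ A * B - A * derivative ℤ B = A * B * PowerSeries.mk (fun j => c (j + 1)))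
    (e : ℕ → O) (he : ∀ i, (i.factorial : O) * e i = (2 : O) ^ (a * i))
    (F : ℕ → O) (hF0 : F 0 = 0) (hF : ∀ j, 1 ≤ j → (2 : O) ^ a * F j * (j : O) = (c j : O)) :
    PowerSeries.map (Int.castRingHom O) A = PowerSeries.map (Int.castRingHom O) B *
      (PowerSeries.mk e).subst (PowerSeries.mk F) := by
  have hs : HasSubst (PowerSeries.mk F) :=
    HasSubst.of_constantCoeff_zero' (by simp [hF0])
  set φ := PowerSeries.map (Int.castRingHom O) with hφ
  set E : PowerSeries O := (PowerSeries.mk e).subst (PowerSeries.mk F) with hE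
  have d1 : derivative O (PowerSeries.mk e) = (2 : PowerSeries O) ^ a * PowerSeries.mk e := by
    ext n
    have e1 := two_pow_C a
    rw [e1, coeff_C_mul, coeff_derivative, coeff_mk, coeff_mk]
    have h0 : ((n.factorial : ℕ) : O) ≠ 0 := by
      exact_mod_cast Nat.factorial_ne_zero n
    apply mul_left_cancel₀ h0
    have h1 := he (n + 1)
    have h2 := he n
    rw [Nat.factorial_succ] at h1
    push_cast at h1
    calc ((n.factorial : ℕ) : O) * (e (n + 1) * ((n : O) + 1))
        = (((n : O) + 1) * (n.factorial : O)) * e (n + 1) := by ring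
      _ = 2 ^ (a * (n + 1)) := h1
      _ = 2 ^ a * ((n.factorial : O) * e n) := by rw [h2]; ring
      _ = _ := by ring
  have d2 : derivative O E = E * PowerSeries.mk (fun j => (c (j + 1) : O)) := by
    rw [hE, derivative_subst hs, d1, subst_mul hs]
    have e1 : ((2 : PowerSeries O) ^ a).subst (PowerSeries.mk F) = (2 : PowerSeries O) ^ a := by
      rw [← coe_substAlgHom hs, map_pow, map_ofNat]
    have e2 : (2 : PowerSeries O) ^ a * derivative O (PowerSeries.mk F) =
        PowerSeries.mk (fun j => (c (j + 1) : O)) := by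
      ext n
      have e3 := two_pow_C a
      rw [e3, coeff_C_mul, coeff_derivative, coeff_mk, coeff_mk, ← hF (n + 1) (by omega)]
      push_cast
      ring
    rw [e1, ← e2]
    ring
  have hE1 : constantCoeff E = 1 := by
    have h0 : e 0 = 1 := by
      have := he 0
      simpa using this
    have : E - 1 = PowerSeries.subst (PowerSeries.mk F) (PowerSeries.mk e - 1) := by
      rw [subst_sub hs, ← hE]
      congr 1
      rw [← coe_substAlgHom hs, map_one]
    have h2 : constantCoeff (PowerSeries.subst (PowerSeries.mk F) (PowerSeries.mk e - 1) :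
        PowerSeries O) = 0 := by
      apply constantCoeff_subst_eq_zero
      · show constantCoeff (PowerSeries.mk F) = 0
        simp [hF0]
      · simp [h0]
    have h3 : constantCoeff (E - 1) = 0 := by
      rw [this]; exact h2
    rw [map_sub, map_one, sub_eq_zero] at h3
    exact h3
  apply eq_of_wronskian
  · rw [hφ, ← coeff_zero_eq_constantCoeff_apply, PowerSeries.coeff_map,
      coeff_zero_eq_constantCoeff_apply, hA]
    simp
  · rw [map_mul, hE1, hφ, ← coeff_zero_eq_constantCoeff_apply, PowerSeries.coeff_map,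
      coeff_zero_eq_constantCoeff_apply, hB]
    simp
  · rw [Derivation.leibniz, smul_eq_mul, smul_eq_mul, d2, ← map_derivative', ← map_derivative']
    have h' := congrArg φ h
    rw [map_sub, map_mul, map_mul, map_mul, map_mul] at h'
    have e4 : φ (PowerSeries.mk (fun j => c (j + 1))) =
        PowerSeries.mk (fun j => (c (j + 1) : O)) := by
      ext n
      simp [hφ]
    rw [e4] at h'
    linear_combination E * h'

lemma coeff_dvd {A B : PowerSeries ℤ} {C : PowerSeries O} {m : ℕ}
    (h : PowerSeries.map (Int.castRingHom O) A - PowerSeries.map (Int.castRingHom O) B =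
      (2 : PowerSeries O) ^ m * C) (n : ℕ) : (2 : ℤ) ^ m ∣ PowerSeries.coeff n (A - B) := by
  rw [← two_pow_dvd_int]
  have h1 := congrArg (PowerSeries.coeff n) h
  have e1 := two_pow_C m
  rw [e1, coeff_C_mul, map_sub, PowerSeries.coeff_map, PowerSeries.coeff_map] at h1
  refine ⟨PowerSeries.coeff n C, ?_⟩
  rw [← h1, map_sub]
  push_cast
  rfl

theorem expl : ExplS := by
  intro A B c hA hB h
  have h' : derivative ℤ A * B - A * derivative ℤ B =
      A * B * PowerSeries.mk (fun j => c (j + 1)) := h
  refine ⟨?_, ?_, ?_⟩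
  · intro a ha hc n
    choose e he1 he2 using fun i => exists_e a i ha
    have hFe : ∀ j : ℕ, ∃ F : O, (j = 0 → F = 0) ∧ (1 ≤ j → (2 : O) ^ a * F * (j : O) = (c j : O)) := by
      intro j
      rcases Nat.eq_zero_or_pos j with h0 | h0
      · exact ⟨0, fun _ => rfl, fun h => by omega⟩
      · obtain ⟨F, hF, _⟩ := exists_F h0 (hc j h0)
        exact ⟨F, fun h => by omega, fun _ => hF⟩
    choose F hF0 hF using hFe
    have hm := main_exp ha hA hB h' e he1 F (hF0 0 rfl) hF
    have hs : HasSubst (PowerSeries.mk F) :=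
      HasSubst.of_constantCoeff_zero' (by simp [hF0 0 rfl])
    -- `e = 1 + 2 ^ a g`
    have hg : ∀ i, ∃ g : O, e i = (if i = 0 then 1 else 0) + 2 ^ a * g := by
      intro i
      rcases Nat.eq_zero_or_pos i with h0 | h0
      · refine ⟨0, ?_⟩
        subst h0
        have := he1 0
        simpa using this
      · obtain ⟨g, hg⟩ := he2 i h0
        refine ⟨2 ^ (i * (a - 1) + 1 - a) * g, ?_⟩
        have h1 : a ≤ i * (a - 1) + 1 := by
          have : a - 1 ≤ i * (a - 1) := Nat.le_mul_of_pos_left _ h0
          omega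
        have h2 : (2 : O) ^ (i * (a - 1) + 1) = 2 ^ a * 2 ^ (i * (a - 1) + 1 - a) := by
          rw [← pow_add]; congr 1; omega
        rw [hg, h2, if_neg (by omega)]
        ring
    choose g hg using hg
    have hmk : PowerSeries.mk e = 1 + (2 : PowerSeries O) ^ a * PowerSeries.mk g := by
      ext n
      have e1 := two_pow_C a
      rw [e1, map_add, coeff_C_mul, coeff_mk, coeff_mk, hg, coeff_one]
    have hsub : (PowerSeries.mk e).subst (PowerSeries.mk F) =
        1 + (2 : PowerSeries O) ^ a * (PowerSeries.mk g).subst (PowerSeries.mk F) := by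
      rw [← coe_substAlgHom hs, hmk, map_add, map_mul, map_pow, map_ofNat, map_one]
    rw [hsub] at hm
    refine coeff_dvd (C := PowerSeries.map (Int.castRingHom O) B *
      (PowerSeries.mk g).subst (PowerSeries.mk F)) ?_ n
    rw [hm]
    ring
  · intro a M ha hM hc hc1 hc2 n
    choose e he1 he2 using fun i => exists_e a i (by omega)
    have hFe : ∀ j : ℕ, ∃ F : O, (j = 0 → F = 0) ∧
        (1 ≤ j → (2 : O) ^ a * F * (j : O) = (c j : O)) ∧
        ∃ F' : O, F = (if j = M then 1 else 0) + 2 * F' := by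
      intro j
      rcases Nat.eq_zero_or_pos j with h0 | h0
      · refine ⟨0, fun _ => rfl, fun h => by omega, 0, ?_⟩
        rw [if_neg (by omega)]
        ring
      · obtain ⟨F, hF, hF1, hF2⟩ := exists_F h0 (hc j h0)
        refine ⟨F, fun h => by omega, fun _ => hF, ?_⟩
        by_cases hjM : j = M
        · subst hjM
          obtain ⟨F', hF'⟩ := hF2 hc2
          refine ⟨F', ?_⟩
          rw [if_pos rfl]
          linear_combination hF'
        · obtain ⟨F', hF'⟩ := hF1 (hc1 j h0 hjM)
          refine ⟨F', ?_⟩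
          rw [if_neg hjM, hF']
          ring
    choose F hF0 hF F' hF' using hFe
    have hm := main_exp (by omega) hA hB h' e he1 F (hF0 0 rfl) hF
    have hs : HasSubst (PowerSeries.mk F) :=
      HasSubst.of_constantCoeff_zero' (by simp [hF0 0 rfl])
    have hg : ∀ i, ∃ g : O, e i = (if i = 0 then 1 else 0) + 2 ^ a * (if i = 1 then 1 else 0) +
        2 ^ (a + 1) * g := by
      intro i
      rcases Nat.lt_or_ge i 2 with h0 | h0
      · refine ⟨0, ?_⟩
        interval_cases i
        · have := he1 0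
          simpa using this
        · have := he1 1
          simpa using this
      · obtain ⟨g, hg⟩ := he2 i (by omega)
        refine ⟨2 ^ (i * (a - 1) + 1 - (a + 1)) * g, ?_⟩
        have h1 : a + 1 ≤ i * (a - 1) + 1 := by
          have : 2 * (a - 1) ≤ i * (a - 1) := Nat.mul_le_mul_right _ h0
          omega
        have h2 : (2 : O) ^ (i * (a - 1) + 1) = 2 ^ (a + 1) * 2 ^ (i * (a - 1) + 1 - (a + 1)) := by
          rw [← pow_add]; congr 1; omega
        rw [hg, h2, if_neg (by omega), if_neg (by omega)]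
        ring
    choose g hg using hg
    have hmk : PowerSeries.mk e = 1 + (2 : PowerSeries O) ^ a * PowerSeries.X +
        (2 : PowerSeries O) ^ (a + 1) * PowerSeries.mk g := by
      ext n
      have e1 := two_pow_C a
      have e2 := two_pow_C (a + 1)
      rw [e1, e2, map_add, map_add, coeff_C_mul, coeff_C_mul, coeff_mk, coeff_mk, hg, coeff_one,
        coeff_X]
    have hmF : PowerSeries.mk F = PowerSeries.X ^ M + 2 * PowerSeries.mk F' := by
      ext n
      have e1 : (2 : PowerSeries O) = PowerSeries.C (2 : O) := (map_ofNat PowerSeries.C 2).symm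
      rw [e1, map_add, coeff_C_mul, coeff_mk, coeff_mk, hF', coeff_X_pow]
    have hsub : (PowerSeries.mk e).subst (PowerSeries.mk F) =
        1 + (2 : PowerSeries O) ^ a * PowerSeries.mk F +
        (2 : PowerSeries O) ^ (a + 1) * (PowerSeries.mk g).subst (PowerSeries.mk F) := by
      rw [← coe_substAlgHom hs, hmk, map_add, map_add, map_mul, map_mul, map_pow, map_pow,
        map_ofNat, map_one, substAlgHom_X]
    have key := coeff_dvd (A := A) (B := B + (2 : PowerSeries ℤ) ^ a * (PowerSeries.X ^ M * B))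
      (C := PowerSeries.map (Int.castRingHom O) B * (PowerSeries.mk F' +
        (PowerSeries.mk g).subst (PowerSeries.mk F))) (m := a + 1) (by
        rw [hm, hsub, map_add, map_mul, map_mul, map_pow, map_pow, map_ofNat, PowerSeries.map_X]
        nth_rw 1 [hmF]
        ring) n
    rw [← sub_sub] at key
    exact key
  · intro hc
    apply eq_of_wronskian hA hB
    have e0 : PowerSeries.mk (fun j => c (j + 1)) = 0 := by
      ext n
      simp [hc (n + 1) (by omega)]
    rw [e0, mul_zero, sub_eq_zero] at h'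
    exact h'

end KG.H78
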