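import Pool.Agent.Lib.MP_ea1188_al.KG.IfaceB

/-!
# Module PRU: countable abelian 2-groups without elements of infinite height
-/

set_option autoImplicit false

namespace KG.H78

open scoped DirectSum Classical

section

variable {A : Type} [AddCommGroup A]

/-- the subgroup `2 ^ n A` -/
def D (A : Type) [AddCommGroup A] (n : ℕ) : AddSubgroup A :=
  (nsmulAddMonoidHom (2 ^ n) : A →+ A).range

lemma mem_D {x : A} {n : ℕ} : x ∈ D A n ↔ ∃ y, (2 ^ n : ℕ) • y = x := Iff.rfl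

lemma D_anti {x : A} {m n : ℕ} (h : m ≤ n) (hx : x ∈ D A n) : x ∈ D A m := by
  obtain ⟨y, rfl⟩ := mem_D.1 hx
  refine mem_D.2 ⟨(2 ^ (n - m) : ℕ) • y, ?_⟩
  rw [← mul_smul, ← pow_add]
  congr 2
  omega

lemma mem_D_zero (x : A) : x ∈ D A 0 := mem_D.2 ⟨x, by simp⟩

/-- one more than the height -/
noncomputable def hh (x : A) : ℕ := sInf {n | x ∉ D A n}

lemma mem_iff_lt (hsep : ∀ x : A, (∀ n, x ∈ D A n) → x = 0) {x : A} (hx : x ≠ 0) (n : ℕ) :
    x ∈ D A n ↔ n < hh x := by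
  have hne : {n | x ∉ D A n}.Nonempty := by
    by_contra h
    rw [Set.not_nonempty_iff_eq_empty, Set.eq_empty_iff_forall_notMem] at h
    exact hx (hsep x fun n => by
      have := h n
      simpa using this)
  constructor
  · intro h
    by_contra h2
    have h3 : x ∉ D A (hh x) := Nat.sInf_mem hne
    exact h3 (D_anti (by omega) h)
  · intro h
    by_contra h2
    have : hh x ≤ n := Nat.sInf_le h2
    omega

/-- The property of the finite sets. -/
def PP (T : Finset A) : Prop :=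
  (∀ x ∈ T, (2 : ℕ) • x = 0 ∧ x ≠ 0) ∧
    ∀ F ⊆ T, ∀ n, (∑ x ∈ F, x) ∈ D A n → ∀ x ∈ F, x ∈ D A n

lemma sum_add_sum {T : Finset A} (hT : ∀ x ∈ T, (2 : ℕ) • x = 0) {F F' : Finset A} (hF : F ⊆ T)
    (hF' : F' ⊆ T) : ∃ F'' ⊆ T, ∑ x ∈ F'', x = ∑ x ∈ F, x + ∑ x ∈ F', x := by
  refine ⟨(F \ F') ∪ (F' \ F), ?_, ?_⟩
  · intro x hx
    rw [Finset.mem_union, Finset.mem_sdiff, Finset.mem_sdiff] at hx
    rcases hx with hx | hx
    · exact hF hx.1
    · exact hF' hx.1
  · rw [Finset.sum_union (by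
      rw [Finset.disjoint_left]
      intro x h1 h2
      rw [Finset.mem_sdiff] at h1 h2
      exact h1.2 h2.1)]
    have e1 := Finset.sum_inter_add_sum_sdiff F F' (fun x => x)
    have e2 := Finset.sum_inter_add_sum_sdiff F' F (fun x => x)
    have e3 : ∑ x ∈ F ∩ F', x + ∑ x ∈ F ∩ F', x = 0 := by
      rw [← Finset.sum_add_distrib]
      apply Finset.sum_eq_zero
      intro x hx
      rw [← two_nsmul]
      exact hT x (hF (Finset.mem_inter.1 hx).1)
    rw [Finset.inter_comm F' F] at e2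
    rw [← e1, ← e2]
    calc ∑ x ∈ F \ F', x + ∑ x ∈ F' \ F, x
        = (∑ x ∈ F \ F', x + ∑ x ∈ F' \ F, x) + (∑ x ∈ F ∩ F', x + ∑ x ∈ F ∩ F', x) := by
          rw [e3, add_zero]
      _ = _ := by abel

lemma extend (hsep : ∀ x : A, (∀ n, x ∈ D A n) → x = 0) {T : Finset A} (hT : PP T) (s : A)
    (hs : (2 : ℕ) • s = 0) : ∃ T' : Finset A, T ⊆ T' ∧ PP T' ∧ ∃ F ⊆ T', ∑ x ∈ F, x = s := by
  by_cases hsT : ∃ F ⊆ T, ∑ x ∈ F, x = s
  · exact ⟨T, subset_rfl, hT, hsT⟩
  have hT2 : ∀ x ∈ T, (2 : ℕ) • x = 0 := fun x hx => (hT.1 x hx).1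
  -- the sums are nonzero
  have hneg : ∀ F ⊆ T, -∑ x ∈ F, x = ∑ x ∈ F, x := by
    intro F hF
    rw [neg_eq_iff_add_eq_zero, ← Finset.sum_add_distrib]
    apply Finset.sum_eq_zero
    intro x hx
    rw [← two_nsmul]
    exact hT2 x (hF hx)
  have hne : ∀ F ⊆ T, s + ∑ x ∈ F, x ≠ 0 := by
    intro F hF h
    apply hsT
    refine ⟨F, hF, ?_⟩
    rw [← hneg F hF]
    exact (eq_neg_of_add_eq_zero_left h).symm
  obtain ⟨F0, hF0, hmax⟩ := Finset.exists_max_image T.powerset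
    (fun F => hh (s + ∑ x ∈ F, x)) ⟨∅, Finset.empty_mem_powerset T⟩
  rw [Finset.mem_powerset] at hF0
  set x := s + ∑ x ∈ F0, x with hx
  have hx2 : (2 : ℕ) • x = 0 := by
    rw [hx, smul_add, hs, zero_add, Finset.smul_sum]
    exact Finset.sum_eq_zero fun y hy => hT2 y (hF0 hy)
  have hxT : ∀ F ⊆ T, ∑ y ∈ F, y ≠ x := by
    intro F hF h
    obtain ⟨F'', hF'', h2⟩ := sum_add_sum hT2 hF hF0
    apply hsT
    refine ⟨F'', hF'', ?_⟩
    rw [h2, h, hx]
    have := hneg F0 hF0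
    rw [add_assoc]
    nth_rw 1 [← this]
    rw [neg_add_cancel, add_zero]
  have hxnT : x ∉ T := by
    intro h
    exact hxT {x} (by simpa using h) (by simp)
  have hmax2 : ∀ F ⊆ T, ∀ n, x + ∑ y ∈ F, y ∈ D A n → x ∈ D A n := by
    intro F hF n hn
    obtain ⟨F'', hF'', h2⟩ := sum_add_sum hT2 hF0 hF
    have e : x + ∑ y ∈ F, y = s + ∑ y ∈ F'', y := by
      rw [h2, hx, add_assoc]
    rw [e, mem_iff_lt hsep (hne F'' hF'')] at hn
    rw [mem_iff_lt hsep (hne F0 hF0)]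
    exact lt_of_lt_of_le hn (hmax F'' (Finset.mem_powerset.2 hF''))
  refine ⟨insert x T, Finset.subset_insert _ _, ⟨?_, ?_⟩, insert x F0,
    Finset.insert_subset_insert _ hF0, ?_⟩
  · intro y hy
    rw [Finset.mem_insert] at hy
    rcases hy with rfl | hy
    · exact ⟨hx2, hne F0 hF0⟩
    · exact hT.1 y hy
  · intro F hF n hn
    by_cases hxF : x ∈ F
    · have hF1 : F.erase x ⊆ T := by
        intro y hy
        rw [Finset.mem_erase] at hy
        have := hF hy.2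
        rw [Finset.mem_insert] at this
        exact this.resolve_left hy.1
      rw [← Finset.add_sum_erase F (fun y => y) hxF] at hn
      have h1 := hmax2 _ hF1 n hn
      have h2 : ∑ y ∈ F.erase x, y ∈ D A n := by
        have := (D A n).sub_mem hn h1
        rwa [add_sub_cancel_left] at this
      intro y hy
      by_cases hyx : y = x
      · rw [hyx]; exact h1
      · exact hT.2 _ hF1 n h2 y (Finset.mem_erase.2 ⟨hyx, hy⟩)
    · have hF1 : F ⊆ T := by
        intro y hy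
        have := hF hy
        rw [Finset.mem_insert] at this
        rcases this with h | h
        · exact absurd (h ▸ hy) hxF
        · exact h
      exact hT.2 F hF1 n hn
  · rw [Finset.sum_insert (fun h => hxnT (hF0 h)), hx, add_assoc]
    have := hneg F0 hF0
    nth_rw 1 [← this]
    rw [neg_add_cancel, add_zero]

/-- the chain of finite sets -/
lemma exists_chain (hsep : ∀ x : A, (∀ n, x ∈ D A n) → x = 0) (g : ℕ → A) :
    ∃ T : ℕ → Finset A, (∀ n, PP (T n)) ∧ Monotone T ∧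
      ∀ n, (2 : ℕ) • g n = 0 → ∃ F ⊆ T (n + 1), ∑ x ∈ F, x = g n := by
  have h : ∀ (S : {T : Finset A // PP T}) (n : ℕ), ∃ S' : {T : Finset A // PP T},
      S.1 ⊆ S'.1 ∧ ((2 : ℕ) • g n = 0 → ∃ F ⊆ S'.1, ∑ x ∈ F, x = g n) := by
    intro S n
    by_cases h2 : (2 : ℕ) • g n = 0
    · obtain ⟨T', h1, h3, h4⟩ := extend hsep S.2 (g n) h2
      exact ⟨⟨T', h3⟩, h1, fun _ => h4⟩
    · exact ⟨S, subset_rfl, fun h => absurd h h2⟩
  choose f hf1 hf2 using h
  have h0 : PP (∅ : Finset A) := by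
    refine ⟨fun x hx => by simp at hx, fun F hF n _ x hx => ?_⟩
    have := hF hx
    simp at this
  let T : ℕ → {T : Finset A // PP T} := fun n => Nat.rec ⟨∅, h0⟩ (fun n S => f S n) n
  refine ⟨fun n => (T n).1, fun n => (T n).2, ?_, ?_⟩
  · exact monotone_nat_of_le_succ fun n => hf1 (T n) n
  · intro n hn
    exact hf2 (T n) n hn

end

/-- The socle basis. -/
lemma exists_basis {A : Type} [AddCommGroup A] [Countable A]
    (hsep : ∀ x : A, (∀ n, x ∈ D A n) → x = 0)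
    (hinf : ∀ k J : ℕ, ∃ (e : Fin J → A) (B : Fin J → Type) (_ : ∀ i, AddCommGroup (B i))
      (χ : ∀ i, A →+ B i), (∀ i, ∃ y, (2 ^ k : ℕ) • y = e i) ∧ (∀ i, (2 : ℕ) • e i = 0) ∧
        (∀ i x, χ i ((2 ^ (k + 1) : ℕ) • x) = 0) ∧ (∀ i j, i ≠ j → χ i (e j) = 0) ∧
        ∀ i, χ i (e i) ≠ 0) :
    ∃ x : ℕ × ℕ → A, (∀ p, x p ≠ 0) ∧ (∀ p, (2 : ℕ) • x p = 0) ∧ (∀ p, x p ∈ D A p.1) ∧
      (∀ (F : Finset (ℕ × ℕ)) (n : ℕ), ∑ p ∈ F, x p ∈ D A n → ∀ p ∈ F, n ≤ p.1) ∧
      ∀ s : A, (2 : ℕ) • s = 0 → ∃ F : Finset (ℕ × ℕ), ∑ p ∈ F, x p = s := by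
  obtain ⟨g, hg⟩ := exists_surjective_nat A
  obtain ⟨T, hT1, hT2, hT3⟩ := exists_chain hsep g
  set B : Set A := {x | ∃ n, x ∈ T n} with hB
  have hBT : ∀ F : Finset A, (∀ x ∈ F, x ∈ B) → ∃ n, F ⊆ T n := by
    intro F
    induction F using Finset.induction_on with
    | empty => intro _; exact ⟨0, by simp⟩
    | insert a s ha ih =>
      intro h
      obtain ⟨n, hn⟩ := ih fun x hx => h x (Finset.mem_insert_of_mem hx)
      obtain ⟨m, hm⟩ := h a (Finset.mem_insert_self _ _)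
      refine ⟨max n m, ?_⟩
      rw [Finset.insert_subset_iff]
      exact ⟨hT2 (le_max_right _ _) hm, hn.trans (hT2 (le_max_left _ _))⟩
  have hB2 : ∀ x ∈ B, (2 : ℕ) • x = 0 ∧ x ≠ 0 := by
    rintro x ⟨n, hn⟩
    exact (hT1 n).1 x hn
  have hBs : ∀ F : Finset A, (∀ x ∈ F, x ∈ B) → ∀ n, (∑ x ∈ F, x) ∈ D A n →
      ∀ x ∈ F, x ∈ D A n := by
    intro F hF n hn
    obtain ⟨m, hm⟩ := hBT F hF
    exact (hT1 m).2 F hm n hn
  have hBg : ∀ s : A, (2 : ℕ) • s = 0 → ∃ F : Finset A, (∀ x ∈ F, x ∈ B) ∧ ∑ x ∈ F, x = s := by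
    intro s hs
    obtain ⟨n, rfl⟩ := hg s
    obtain ⟨F, hF, h⟩ := hT3 n hs
    exact ⟨F, fun x hx => ⟨n + 1, hF hx⟩, h⟩
  have hht : ∀ x ∈ B, ∀ n, x ∈ D A n ↔ n < hh x := fun x hx n => mem_iff_lt hsep (hB2 x hx).2 n
  -- the fibres are infinite
  have hfib : ∀ k : ℕ, {x : A | x ∈ B ∧ hh x = k + 1}.Infinite := by
    intro k hfin
    obtain ⟨e, Bt, inst, χ, h1, h2, h3, h4, h5⟩ := hinf k (hfin.toFinset.card + 1)
    -- sums of the `e`
    have hsT : ∀ T : Finset (Fin (hfin.toFinset.card + 1)), ∃ G ⊆ hfin.toFinset,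
        ∑ j ∈ T, e j - ∑ x ∈ G, x ∈ D A (k + 1) := by
      intro T
      have hs2 : (2 : ℕ) • ∑ j ∈ T, e j = 0 := by
        rw [Finset.smul_sum]
        exact Finset.sum_eq_zero fun j _ => h2 j
      have hsk : ∑ j ∈ T, e j ∈ D A k := (D A k).sum_mem fun j _ => mem_D.2 (h1 j)
      obtain ⟨F, hF, hFs⟩ := hBg _ hs2
      rw [← hFs] at hsk ⊢
      have hk := hBs F hF k hsk
      refine ⟨F.filter (fun x => hh x = k + 1), ?_, ?_⟩
      · intro x hx
        rw [Finset.mem_filter] at hx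
        rw [Set.Finite.mem_toFinset]
        exact ⟨hF x hx.1, hx.2⟩
      · rw [← Finset.sum_filter_add_sum_filter_not F (fun x => hh x = k + 1), add_sub_cancel_left]
        apply (D A (k + 1)).sum_mem
        intro x hx
        rw [Finset.mem_filter] at hx
        have e1 := (hht x (hF x hx.1) k).1 (hk x hx.1)
        rw [hht x (hF x hx.1)]
        have := hx.2
        omega
    choose G hG1 hG2 using hsT
    have hχ : ∀ (T : Finset (Fin (hfin.toFinset.card + 1))) (l : Fin (hfin.toFinset.card + 1)),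
        l ∈ T ↔ χ l (∑ j ∈ T, e j) ≠ 0 := by
      intro T l
      rw [map_sum]
      by_cases hl : l ∈ T
      · rw [Finset.sum_eq_single l (fun j _ hj => h4 l j (Ne.symm hj)) (fun h => absurd hl h)]
        exact ⟨fun _ => h5 l, fun _ => hl⟩
      · rw [Finset.sum_eq_zero fun j hj => h4 l j (fun h => hl (h ▸ hj))]
        exact ⟨fun h => absurd h hl, fun h => absurd rfl h⟩
    have hinj : Set.InjOn G (Finset.univ : Finset (Finset (Fin (hfin.toFinset.card + 1)))) := by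
      intro T _ T' _ hTT
      have h6 : ∑ j ∈ T, e j - ∑ j ∈ T', e j ∈ D A (k + 1) := by
        have := (D A (k + 1)).sub_mem (hG2 T) (hG2 T')
        rw [hTT] at this
        have e1 : ∑ j ∈ T, e j - ∑ x ∈ G T', x - (∑ j ∈ T', e j - ∑ x ∈ G T', x) =
          ∑ j ∈ T, e j - ∑ j ∈ T', e j := by abel
        rwa [e1] at this
      obtain ⟨y, hy⟩ := mem_D.1 h6
      ext l
      rw [hχ T l, hχ T' l]
      have h7 := h3 l y
      rw [hy, map_sub, sub_eq_zero] at h7
      rw [h7]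
    have hcard := Finset.card_le_card_of_injOn (s := Finset.univ) (t := hfin.toFinset.powerset) G
      (fun T _ => Finset.mem_coe.2 (Finset.mem_powerset.2 (hG1 T))) hinj
    rw [Finset.card_univ, Fintype.card_finset, Fintype.card_fin, Finset.card_powerset] at hcard
    exact absurd hcard (by
      rw [not_le]
      exact Nat.pow_lt_pow_right (by norm_num) (Nat.lt_succ_self _))
  have hσ : ∀ k : ℕ, Nonempty (ℕ ≃ {x : A | x ∈ B ∧ hh x = k + 1}) := by
    intro k
    have := (hfib k).to_subtype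
    exact nonempty_equiv_of_countable
  let σ : ∀ k : ℕ, ℕ ≃ {x : A | x ∈ B ∧ hh x = k + 1} := fun k => (hσ k).some
  have hxB : ∀ p : ℕ × ℕ, ((σ p.1 p.2 : {x : A | x ∈ B ∧ hh x = p.1 + 1}) : A) ∈ B :=
    fun p => (σ p.1 p.2).2.1
  have hxh : ∀ p : ℕ × ℕ, hh ((σ p.1 p.2 : {x : A | x ∈ B ∧ hh x = p.1 + 1}) : A) = p.1 + 1 :=
    fun p => (σ p.1 p.2).2.2
  have hxinj : Function.Injective
      (fun p : ℕ × ℕ => ((σ p.1 p.2 : {x : A | x ∈ B ∧ hh x = p.1 + 1}) : A)) := by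
    rintro ⟨k, i⟩ ⟨k', i'⟩ h
    have h1 : k = k' := by
      have e1 := hxh (k, i)
      have e2 := hxh (k', i')
      have h' : ((σ k i : {x : A | x ∈ B ∧ hh x = k + 1}) : A) =
        ((σ k' i' : {x : A | x ∈ B ∧ hh x = k' + 1}) : A) := h
      simp only [h'] at e1
      rw [e2] at e1
      simpa using e1.symm
    subst h1
    have h2 : σ k i = σ k i' := Subtype.ext h
    rw [(σ k).injective h2]
  refine ⟨fun p => ((σ p.1 p.2 : {x : A | x ∈ B ∧ hh x = p.1 + 1}) : A), fun p =>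
    (hB2 _ (hxB p)).2, fun p => (hB2 _ (hxB p)).1, ?_, ?_, ?_⟩
  · intro p
    rw [hht _ (hxB p), hxh p]
    exact Nat.lt_succ_self _
  · intro F n hn p hp
    rw [← Finset.sum_image (f := fun a : A => a) (fun a _ b _ h => hxinj h)] at hn
    have h1 := hBs _ (by
      intro x hx
      obtain ⟨q, _, rfl⟩ := Finset.mem_image.1 hx
      exact hxB q) n hn _ (Finset.mem_image_of_mem _ hp)
    rw [hht _ (hxB p), hxh p] at h1
    omega
  · intro s hs
    obtain ⟨F, hF, hFs⟩ := hBg s hs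
    have hsurj : ∀ x ∈ B, ∃ p : ℕ × ℕ, ((σ p.1 p.2 : {x : A | x ∈ B ∧ hh x = p.1 + 1}) : A) = x := by
      intro x hx
      have h0 : 0 < hh x := (hht x hx 0).1 (mem_D_zero x)
      refine ⟨(hh x - 1, (σ (hh x - 1)).symm ⟨x, hx, by omega⟩), ?_⟩
      simp
    choose q hq using hsurj
    have hpre : F = (F.preimage (fun p : ℕ × ℕ =>
        ((σ p.1 p.2 : {x : A | x ∈ B ∧ hh x = p.1 + 1}) : A)) hxinj.injOn).image
        (fun p : ℕ × ℕ => ((σ p.1 p.2 : {x : A | x ∈ B ∧ hh x = p.1 + 1}) : A)) := by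
      ext x
      rw [Finset.mem_image]
      constructor
      · intro hx
        exact ⟨q x (hF x hx), by rw [Finset.mem_preimage, hq]; exact hx, hq x (hF x hx)⟩
      · rintro ⟨p, hp, rfl⟩
        rw [Finset.mem_preimage] at hp
        exact hp
    refine ⟨F.preimage (fun p : ℕ × ℕ =>
        ((σ p.1 p.2 : {x : A | x ∈ B ∧ hh x = p.1 + 1}) : A)) hxinj.injOn, ?_⟩
    rw [← hFs]
    conv_rhs => rw [hpre]
    rw [Finset.sum_image (fun a _ b _ h => hxinj h)]

lemma zmod_two {n : ℕ} {z : ZMod (2 ^ (n + 1))} (h : (2 : ℕ) • z = 0) :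
    z = 0 ∨ z = ((2 ^ n : ℕ) : ZMod (2 ^ (n + 1))) := by
  have hne : NeZero (2 ^ (n + 1)) := ⟨by positivity⟩
  have h1 : ((2 * z.val : ℕ) : ZMod (2 ^ (n + 1))) = 0 := by
    push_cast
    rw [ZMod.natCast_zmod_val]
    simpa [nsmul_eq_mul] using h
  rw [ZMod.natCast_eq_zero_iff] at h1
  have h2 : 2 ^ n ∣ z.val := by
    obtain ⟨c, hc⟩ := h1
    refine ⟨c, ?_⟩
    have : 2 ^ (n + 1) * c = 2 * (2 ^ n * c) := by ring
    rw [this] at hc
    exact Nat.eq_of_mul_eq_mul_left (by norm_num) hc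
  have h3 : z.val < 2 ^ (n + 1) := ZMod.val_lt z
  obtain ⟨c, hc⟩ := h2
  have hc2 : c < 2 := by
    by_contra h4
    push Not at h4
    have : 2 ^ n * 2 ≤ 2 ^ n * c := Nat.mul_le_mul_left _ h4
    rw [← hc, ← pow_succ] at this
    omega
  interval_cases c
  · left
    rw [← ZMod.val_eq_zero, hc]
    rfl
  · right
    rw [mul_one] at hc
    rw [← hc, ZMod.natCast_zmod_val]

theorem pru : PruS := by
  intro A _ _ htor hdiv hinf
  have hsep : ∀ x : A, (∀ n, x ∈ D A n) → x = 0 := fun x hx => hdiv x fun n => mem_D.1 (hx n)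
  obtain ⟨x, hx0, hx2, hxD, hxF, hxg⟩ := exists_basis hsep hinf
  choose y hy using fun p => mem_D.1 (hxD p)
  have hy2 : ∀ p, (2 ^ (p.1 + 1) : ℕ) • y p = 0 := by
    intro p
    rw [pow_succ, mul_comm, mul_smul, hy, hx2]
  let f : ∀ p : ℕ × ℕ, ZMod (2 ^ (p.1 + 1)) →+ A := fun p =>
    ZMod.lift (2 ^ (p.1 + 1)) ⟨zmultiplesHom A (y p), by
      rw [zmultiplesHom_apply, natCast_zsmul]
      exact hy2 p⟩
  have hf : ∀ (p : ℕ × ℕ) (k : ℕ), f p (k : ZMod (2 ^ (p.1 + 1))) = k • y p := by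
    intro p k
    have := ZMod.lift_coe (2 ^ (p.1 + 1)) (A := A) ⟨zmultiplesHom A (y p), by
      rw [zmultiplesHom_apply, natCast_zsmul]
      exact hy2 p⟩ (k : ℤ)
    rw [Int.cast_natCast] at this
    show ZMod.lift _ _ _ = _
    rw [this]
    simp
  let Φ : (⨁ p : ℕ × ℕ, ZMod (2 ^ (p.1 + 1))) →+ A := DirectSum.toAddMonoid f
  have hΦ : ∀ p z, Φ (DirectSum.of (fun p : ℕ × ℕ => ZMod (2 ^ (p.1 + 1))) p z) = f p z :=
    fun p z => DirectSum.toAddMonoid_of _ _ _
  -- every element of the sum has 2-power order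
  have hord : ∀ z : ⨁ p : ℕ × ℕ, ZMod (2 ^ (p.1 + 1)), ∃ m : ℕ, (2 ^ m : ℕ) • z = 0 := by
    intro z
    induction z using DirectSum.induction_on with
    | zero => exact ⟨0, smul_zero _⟩
    | of p z =>
      refine ⟨p.1 + 1, ?_⟩
      rw [← map_nsmul]
      have : (2 ^ (p.1 + 1) : ℕ) • z = 0 := by
        rw [nsmul_eq_mul, ZMod.natCast_self, zero_mul]
      rw [this, map_zero]
    | add a b ha hb =>
      obtain ⟨m, hm⟩ := ha
      obtain ⟨n, hn⟩ := hb
      refine ⟨m + n, ?_⟩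
      rw [smul_add, pow_add]
      nth_rw 1 [mul_comm]
      rw [mul_smul, hm, smul_zero, mul_smul, hn, smul_zero, add_zero]
  have hinj : Function.Injective Φ := by
    rw [injective_iff_map_eq_zero]
    intro z hz
    by_contra hz0
    have hex := hord z
    set m := Nat.find hex with hm
    have hm1 : (2 ^ m : ℕ) • z = 0 := Nat.find_spec hex
    have hm0 : m ≠ 0 := by
      intro h
      rw [h] at hm1
      simp at hm1
      exact hz0 hm1
    obtain ⟨m', hm'⟩ : ∃ m', m = m' + 1 := ⟨m - 1, by omega⟩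
    set w := (2 ^ m' : ℕ) • z with hw
    have hw0 : w ≠ 0 := fun h => by
      have := Nat.find_min' hex h
      omega
    have hw2 : (2 : ℕ) • w = 0 := by
      rw [hw, ← mul_smul, ← pow_succ', ← hm', hm1]
    have hΦw : Φ w = 0 := by rw [hw, map_nsmul, hz, smul_zero]
    have hcomp : ∀ p, w p = 0 ∨ w p = ((2 ^ p.1 : ℕ) : ZMod (2 ^ (p.1 + 1))) := by
      intro p
      apply zmod_two
      have := congrArg (fun v : (⨁ p : ℕ × ℕ, ZMod (2 ^ (p.1 + 1))) => v p) hw2
      exact this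
    have hsum : Φ w = ∑ p ∈ DFinsupp.support w, x p := by
      have e1 : w = ∑ p ∈ DFinsupp.support w,
          DirectSum.of (fun p : ℕ × ℕ => ZMod (2 ^ (p.1 + 1))) p (w p) :=
        (DirectSum.sum_support_of w).symm
      conv_lhs => rw [e1]
      rw [map_sum]
      apply Finset.sum_congr rfl
      intro p hp
      rw [hΦ]
      have : w p ≠ 0 := DFinsupp.mem_support_toFun w p |>.1 hp
      rcases hcomp p with h | h
      · exact absurd h this
      · rw [h, hf, hy]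
    rw [hΦw] at hsum
    have hempty : DFinsupp.support w = ∅ := by
      rw [Finset.eq_empty_iff_forall_notMem]
      intro p hp
      have := hxF (DFinsupp.support w) (p.1 + 1) (by rw [← hsum]; exact (D A _).zero_mem) p hp
      omega
    apply hw0
    exact DFinsupp.support_eq_empty.1 hempty
  have hsurj : Function.Surjective Φ := by
    have key : ∀ m : ℕ, ∀ a : A, (2 ^ m : ℕ) • a = 0 → a ∈ Φ.range := by
      intro m
      induction m with
      | zero =>
        intro a ha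
        rw [pow_zero, one_smul] at ha
        rw [ha]
        exact Φ.range.zero_mem
      | succ m ih =>
        intro a ha
        have hs : (2 : ℕ) • ((2 ^ m : ℕ) • a) = 0 := by rw [← mul_smul, ← pow_succ', ha]
        obtain ⟨F, hF⟩ := hxg _ hs
        have hFm : ∀ p ∈ F, m ≤ p.1 := hxF F m (by rw [hF]; exact mem_D.2 ⟨a, rfl⟩)
        set z := ∑ p ∈ F, (2 ^ (p.1 - m) : ℕ) • y p with hz
        have hzr : z ∈ Φ.range := by
          apply Φ.range.sum_mem
          intro p _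
          apply Φ.range.nsmul_mem
          refine ⟨DirectSum.of (fun p : ℕ × ℕ => ZMod (2 ^ (p.1 + 1))) p ((1 : ℕ) : ZMod _), ?_⟩
          rw [hΦ, hf, one_smul]
        have hzm : (2 ^ m : ℕ) • z = (2 ^ m : ℕ) • a := by
          rw [← hF, hz, Finset.smul_sum]
          apply Finset.sum_congr rfl
          intro p hp
          rw [← mul_smul, ← pow_add, ← hy p]
          congr 2
          have := hFm p hp
          omega
        have h1 : a - z ∈ Φ.range := ih _ (by rw [smul_sub, hzm, sub_self])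
        have := Φ.range.add_mem h1 hzr
        rwa [sub_add_cancel] at this
    intro a
    obtain ⟨m, hm⟩ := htor a
    exact key m a hm
  exact ⟨(AddEquiv.ofBijective Φ ⟨hinj, hsurj⟩).symm⟩

end KG.H78
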